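import Mathlib
import Pool.Agent.H19.SlowOsc

set_option autoImplicit false

namespace Pool.Agent.Results.MP_c8ce56_lc.IffNotCH

open Set Cardinal Pool.Agent.H19.SlowOsc

/-- Eventually macro-uniform functions for the `κ`-ballean of `G`. -/
def EMU {G : Type} [Group G] (κ : Cardinal.{0}) (f : G → ℝ) : Prop :=
  ∀ F : Set G, #F < κ → ∃ B : Set G, #B < κ ∧ ⨆ x ∉ B, Metric.ediam (f '' ((· * x) '' F)) < ⊤

/-- The `κ`-ballean of `G` is emu-bounded. -/
def EmuBounded (G : Type) [Group G] (κ : Cardinal.{0}) : Prop :=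
  ∀ f : G → ℝ, EMU κ f → ∃ B : Set G, #B < κ ∧ ∃ M, ∀ x ∉ B, |f x| ≤ M

lemma ctbl {α : Type} (s : Set α) : s.Countable ↔ #s < ℵ₁ := by
  rw [lt_aleph_one_iff, le_aleph0_iff_set_countable]

lemma unif {G : Type} [Group G] {f : G → ℝ} (hf : EMU ℵ₁ f) :
    ∃ C, 0 ≤ C ∧ ∀ g, #{x | C < |f (g * x) - f x|} < ℵ₁ := by
  by_contra! h
  choose g hg using fun n : ℕ => h n n.cast_nonneg
  obtain ⟨B, hB, h1⟩ := hf (insert 1 (range g))
    ((ctbl _).mp ((countable_range g).insert 1))
  obtain ⟨n, hn⟩ := ENNReal.exists_nat_gt h1.ne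
  obtain ⟨x, hx, h2⟩ := pick (hB.trans_le (hg n))
  have := (Metric.edist_le_ediam_of_mem (mem_image_of_mem f (mem_image_of_mem (· * x)
    (mem_insert_of_mem 1 (mem_range_self n))))
    (mem_image_of_mem f (mem_image_of_mem (· * x) (mem_insert 1 _)))).trans ((le_iSup₂ (f := fun x (_ : x ∉ B) =>
      Metric.ediam (f '' ((· * x) '' insert 1 (range g)))) x h2).trans hn.le)
  rw [← ENNReal.ofReal_natCast, edist_le_ofReal n.cast_nonneg, Real.dist_eq] at this
  simp only [one_mul] at this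
  exact not_le.mpr (show (n : ℝ) < |f (g n * x) - f x| from hx) this

lemma not_bdd {G : Type} [Group G] (hG : #G = ℵ₁) : ¬ EmuBounded G ℵ₁ := by
  intro h
  obtain ⟨e⟩ : Nonempty (G ≃ (ℵ₁ : Cardinal.{0}).ord.ToType) := by
    rw [← Cardinal.eq, mk_ord_toType, hG]
  have hu : ∀ s : Set G, s.Countable → ∃ x, x ∉ s := fun s hs => by
    obtain ⟨x, -, hx⟩ := pick (K := univ) (((ctbl s).mp hs).trans_eq
      (by rw [mk_univ, hG]))
    exact ⟨x, hx⟩
  have h1 : ∀ a, (e ⁻¹' Iic (e a)).Countable := fun a => by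
    refine Countable.preimage_of_injOn ?_ e.injective.injOn
    rw [← Iio_insert]
    exact ((ctbl _).mpr (mk_Iio_ord_toType _)).insert _
  let H : G → Subgroup G := fun a => Subgroup.closure (e ⁻¹' Iic (e a))
  have h2 : ∀ a, (H a : Set G).Countable := fun a => by
    have := (h1 a).to_subtype
    rw [show H a = (FreeGroup.lift (Subtype.val : (e ⁻¹' Iic (e a)) → G)).range by
      rw [FreeGroup.range_lift_eq_closure, Subtype.range_coe]]
    exact countable_range _
  let S : G → Set G := fun x => {a | x ∈ H a}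
  have h3 : ¬ (range S).Countable := fun h => by
    obtain ⟨x, hx⟩ := hu _ (h.biUnion (t := fun s _ => S ⁻¹' {s}) (by
      rintro _ ⟨x, rfl⟩
      exact (h2 x).mono fun y hy =>
        (show S y = S x from hy).ge (Subgroup.subset_closure (le_refl (e x)))))
    exact hx (mem_biUnion (mem_range_self x) rfl)
  have : Infinite (range S) := Set.Infinite.to_subtype fun h => h3 h.countable
  obtain ⟨φ⟩ : Nonempty (range S ≃ range S × ℕ) := by
    rw [← Cardinal.eq]; simp
  obtain ⟨B, hB, M, hM⟩ := h (fun x => (φ ⟨S x, x, rfl⟩).2) fun F hF => by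
    obtain ⟨a, ha⟩ := hu _ (((ctbl F).mpr hF).biUnion fun a _ => h1 a)
    refine ⟨H a, (ctbl _).mp (h2 a), lt_of_le_of_lt (b := 0)
      (iSup₂_le fun x hx => ?_) ENNReal.zero_lt_top⟩
    have h4 : ∀ g ∈ F, S (g * x) = S x := by
      intro g hg
      have h5 : g ∈ H a := Subgroup.subset_closure (show e g ≤ e a from
        le_of_not_ge fun h => ha (mem_biUnion hg h))
      ext b
      rcases le_total (e a) (e b) with h6 | h6
      · exact (H b).mul_mem_cancel_left
          (Subgroup.closure_mono (preimage_mono (Iic_subset_Iic.mpr h6)) h5)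
      · have h7 : H b ≤ H a := Subgroup.closure_mono (preimage_mono (Iic_subset_Iic.mpr h6))
        exact ⟨fun h => (hx (((H a).mul_mem_cancel_left h5).mp (h7 h))).elim,
          fun h => (hx (h7 h)).elim⟩
    refine (Metric.ediam_subsingleton ?_).le
    rintro _ ⟨_, ⟨g, hg, rfl⟩, rfl⟩ _ ⟨_, ⟨g', hg', rfl⟩, rfl⟩
    simp only [h4 g hg, h4 g' hg']
  obtain ⟨n, hn⟩ := exists_nat_gt M
  refine h3 ?_
  have h4 : ((fun s => (φ.symm (s, n)).1) ⁻¹' (S '' B)).Countable :=
    (((ctbl B).mpr hB).image S).preimage_of_injOn fun a _ b _ h => by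
      simpa using Subtype.ext h
  rw [← countable_coe_iff, ← countable_univ_iff]
  refine h4.mono fun s _ => ?_
  obtain ⟨x, hx⟩ := (φ.symm (s, n)).2
  refine ⟨x, by_contra fun h5 => ?_, hx⟩
  have := hM x h5
  rw [show (⟨S x, x, rfl⟩ : range S) = φ.symm (s, n) from Subtype.ext hx] at this
  simp at this
  linarith

/-- The `ω₁`-ballean of `S_ω` is emu-bounded if and only if the Continuum Hypothesis fails. -/
theorem result : EmuBounded (Equiv.Perm ℕ) ℵ₁ ↔ (𝔠 : Cardinal.{0}) ≠ ℵ₁ := by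
  refine ⟨fun h h' => not_bdd (by rw [mk_perm_eq_two_power, ← h']; simp) h, fun h f hf => ?_⟩
  have h0 : (ℵ₁ : Cardinal.{0}) < 𝔠 := lt_of_le_of_ne aleph_one_le_continuum h.symm
  obtain ⟨C, hC, h1⟩ := unif hf
  obtain ⟨K, h2, h3, h4⟩ := perm (X := ℕ)
  obtain ⟨c, hc⟩ := main aleph0_lt_aleph_one.le hC h1 K (h0.trans_le h2) (h0.le.trans h3)
    fun g => (h4 g).imp h0.trans_le h0.trans_le
  refine ⟨_, hc, 16 * C + |c|, fun x hx => ?_⟩
  have h5 : |f x - c| ≤ 16 * C := not_lt.mp hx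
  linarith [abs_sub_abs_le_abs_sub (f x) c]

end Pool.Agent.Results.MP_c8ce56_lc.IffNotCH
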